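import Mathlib

namespace Pool.Agent.Results.MP_935800_an.Counter

open MeasureTheory Set Filter Topology
open scoped ENNReal

/-- The partial derivative in the `i`-th coordinate. -/
noncomputable def pd {d : ℕ} (i : Fin d) (f : (Fin d → ℝ) → ℝ) (x : Fin d → ℝ) : ℝ :=
  deriv (fun t => f (Function.update x i t)) (x i)

/-- The class `F^k_d(D)`. -/
def F (d k : ℕ) (D : Set (Fin d → ℝ)) : Set ((Fin d → ℝ) → ℝ) :=
  {f | ContDiffOn ℝ k f (interior D) ∧ (∀ x ∈ D, |f x| ≤ 1) ∧
    ∀ l : List (Fin d), l.length ≤ k → ∀ x ∈ interior D, |l.foldr pd f x| ≤ 1}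

/-- The `n`-th minimal worst-case error of integration on `F^k_d(D)`. -/
noncomputable def err (d k : ℕ) (D : Set (Fin d → ℝ)) (n : ℕ) : ℝ≥0∞ :=
  ⨅ (x : Fin n → D) (φ : (Fin n → ℝ) → ℝ), ⨆ f ∈ F d k D,
    ENNReal.ofReal |(∫ y in D, f y) - φ fun j => f (x j)|

theorem pd_const {d : ℕ} {U : Set (Fin d → ℝ)} {f : (Fin d → ℝ) → ℝ} (hU : IsOpen U)
    (h : ∀ x ∈ U, ∀ᶠ y in 𝓝 x, f y = f x) (l : List (Fin d)) :
    (∀ x ∈ U, ∀ᶠ y in 𝓝 x, l.foldr pd f y = l.foldr pd f x) ∧
      (l ≠ [] → ∀ x ∈ U, l.foldr pd f x = 0) := by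
  induction l with
  | nil => exact ⟨h, fun h => absurd rfl h⟩
  | cons i l ih =>
    have h0 : ∀ x ∈ U, (i :: l).foldr pd f x = 0 := fun x hx => by
      have h1 : Tendsto (fun t => Function.update x i t) (𝓝 (x i)) (𝓝 x) := by
        have := (continuous_const.update i continuous_id :
          Continuous fun t : ℝ => Function.update x i t).tendsto (x i)
        simpa using this
      have h2 : (fun t => l.foldr pd f (Function.update x i t)) =ᶠ[𝓝 (x i)]
          fun _ => l.foldr pd f x := h1.eventually (ih.1 x hx)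
      rw [List.foldr_cons, pd, h2.deriv_eq, deriv_const]
    refine ⟨fun x hx => ?_, fun _ => h0⟩
    filter_upwards [hU.mem_nhds hx] with y hy
    rw [h0 y hy, h0 x hx]

section
variable (s : ℕ → ℝ)

def I (j : ℕ) : Set ℝ := Ioo (2 * s (j + 1)) (s j + s (j + 1))

def G (j : ℕ) : Set ℝ := Ioo (s j + s (j + 1)) (2 * s j)

variable {s} (hs : StrictAnti s) (h0 : s 0 = 1) (hl : Tendsto s atTop (𝓝 0))
include hs

theorem disj {A : ℕ → Set ℝ} (hA : ∀ j, A j ⊆ Ioo (2 * s (j + 1)) (2 * s j)) :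
    Pairwise (Function.onFun Disjoint A) := by
  have : ∀ i j, i < j → Disjoint (A i) (A j) := fun i j hij =>
    disjoint_left.2 fun x hi hj => by
      linarith [(hA i hi).1, (hA j hj).2, hs.antitone (show i + 1 ≤ j from hij)]
  intro i j hij
  rcases lt_or_gt_of_ne hij with h | h
  exacts [this i j h, (this j i h).symm]

theorem I_sub (j : ℕ) : I s j ⊆ Ioo (2 * s (j + 1)) (2 * s j) :=
  Ioo_subset_Ioo_right (by linarith [hs (Nat.lt_succ_self j)])

theorem G_sub (j : ℕ) : G s j ⊆ Ioo (2 * s (j + 1)) (2 * s j) :=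
  Ioo_subset_Ioo_left (by linarith [hs (Nat.lt_succ_self j)])

include h0 hl

theorem tsum_eq : ∑' j, ENNReal.ofReal (s j - s (j + 1)) = 1 := by
  have hn : ∀ j, 0 ≤ s j - s (j + 1) := fun j => sub_nonneg.2 (hs (Nat.lt_succ_self j)).le
  have : HasSum (fun j => s j - s (j + 1)) 1 := by
    rw [hasSum_iff_tendsto_nat_of_nonneg hn]
    simp only [Finset.sum_range_sub']
    simpa [h0] using hl.const_sub (s 0)
  rw [← ENNReal.ofReal_tsum_of_nonneg hn this.summable, this.tsum_eq, ENNReal.ofReal_one]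

theorem vol_I : volume (⋃ j, I s j) = 1 := by
  rw [measure_iUnion (disj hs (I_sub hs)) fun _ => measurableSet_Ioo, ← tsum_eq hs h0 hl]
  refine tsum_congr fun j => ?_
  rw [I, Real.volume_Ioo]; congr 1; ring

theorem sub_Icc {A : ℕ → Set ℝ} (hA : ∀ j, A j ⊆ Ioo (2 * s (j + 1)) (2 * s j)) :
    (⋃ j, A j) ⊆ Icc 0 2 := iUnion_subset fun j x hx => by
  have h1 := hA j hx
  have h2 := hs.antitone.le_of_tendsto hl (j + 1)
  have h3 := hs.antitone (Nat.zero_le j)
  exact ⟨by linarith [h1.1], by linarith [h1.2]⟩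

theorem vol_cl : volume (closure (⋃ j, I s j)) ≤ 1 := by
  have hG : volume (⋃ j, G s j) = 1 := by
    rw [measure_iUnion (disj hs (G_sub hs)) fun _ => measurableSet_Ioo, ← tsum_eq hs h0 hl]
    refine tsum_congr fun j => ?_
    rw [G, Real.volume_Ioo]; congr 1; ring
  have ho : IsOpen (⋃ j, G s j) := isOpen_iUnion fun _ => isOpen_Ioo
  have hsub : closure (⋃ j, I s j) ⊆ Icc 0 2 \ ⋃ j, G s j := by
    refine closure_minimal (fun x hx => ⟨sub_Icc hs h0 hl (I_sub hs) hx, fun hx' => ?_⟩)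
      (isClosed_Icc.sdiff ho)
    obtain ⟨i, hi⟩ := mem_iUnion.1 hx
    obtain ⟨j, hj⟩ := mem_iUnion.1 hx'
    rcases eq_or_ne i j with rfl | hij
    · exact lt_asymm hi.2 hj.1
    · exact disjoint_left.1 (disj hs (fun _ => Subset.rfl) hij) (I_sub hs i hi) (G_sub hs j hj)
  refine (measure_mono hsub).trans ?_
  rw [measure_sdiff (sub_Icc hs h0 hl (G_sub hs)) ho.measurableSet.nullMeasurableSet
    (by rw [hG]; simp), hG, Real.volume_Icc]
  rw [show ENNReal.ofReal (2 - 0) = 1 + 1 by norm_num]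
  simp

end

def box (d : ℕ) (A : Set ℝ) : Set (Fin (d + 1) → ℝ) :=
  univ.pi fun i => if i = 0 then A else Ioo 0 1

theorem vol_box (d : ℕ) (A : Set ℝ) : volume (box d A) = volume A := by
  rw [box, volume_pi_pi, Fin.prod_univ_succ]
  simp [Fin.succ_ne_zero]

theorem open_box (d : ℕ) {A : Set ℝ} (hA : IsOpen A) : IsOpen (box d A) :=
  isOpen_set_pi finite_univ fun i _ => by split_ifs; exacts [hA, isOpen_Ioo]

theorem lower {s : ℕ → ℝ} (hs : StrictAnti s) (d k n : ℕ) {δ : ℝ} (hδ0 : 0 ≤ δ)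
    (hδ : ∀ j < 2 * n, δ ≤ s j - s (j + 1)) :
    ENNReal.ofReal (n * δ / 2) ≤ err (d + 1) k (box d (⋃ j, I s j)) n := by
  classical
  refine le_iInf₂ fun x φ => ?_
  have hD : IsOpen (box d (⋃ j, I s j)) := open_box d (isOpen_iUnion fun j => isOpen_Ioo)
  have hmem : ∀ y ∈ box d (⋃ j, I s j), ∃ j, y 0 ∈ I s j := fun y hy => by
    simpa using hy 0 trivial
  choose c hc using fun j => hmem _ (x j).2
  set U := Finset.range (2 * n) \ Finset.univ.image c with hU
  have hcard : n ≤ U.card := by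
    have h1 := Finset.le_card_sdiff (Finset.univ.image c) (Finset.range (2 * n))
    have h2 : (Finset.univ.image c).card ≤ n := Finset.card_image_le.trans (by simp)
    rw [Finset.card_range, ← hU] at h1
    omega
  set A : Set ℝ := ⋃ j ∈ U, I s j with hA
  have hAo : IsOpen A := isOpen_biUnion fun _ _ => isOpen_Ioo
  have hdis := disj hs (I_sub hs)
  have hout : ∀ j ∉ U, ∀ t ∈ I s j, t ∉ A := fun j hj t ht htA => by
    obtain ⟨i, hi, hti⟩ := mem_iUnion₂.1 htA
    exact disjoint_left.1 (hdis (show i ≠ j from fun e => hj (e ▸ hi))) hti ht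
  set f : (Fin (d + 1) → ℝ) → ℝ := indicator {y | y 0 ∈ A} 1 with hf
  have hin : ∀ z : Fin (d + 1) → ℝ, z 0 ∈ A → f z = 1 := fun z hz =>
    indicator_of_mem (s := {y : Fin (d + 1) → ℝ | y 0 ∈ A}) hz _
  have hno : ∀ z : Fin (d + 1) → ℝ, z 0 ∉ A → f z = 0 := fun z hz =>
    indicator_of_notMem (s := {y : Fin (d + 1) → ℝ | y 0 ∈ A}) hz _
  have hloc : ∀ y ∈ box d (⋃ j, I s j), ∀ᶠ z in 𝓝 y, f z = f y := fun y hy => by
    obtain ⟨j, hj⟩ := hmem y hy
    have : ∀ᶠ z in 𝓝 y, z 0 ∈ I s j :=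
      (continuous_apply 0).continuousAt.eventually (isOpen_Ioo.mem_nhds hj)
    filter_upwards [this] with z hz
    by_cases hjU : j ∈ U
    · rw [hin z (mem_iUnion₂.2 ⟨j, hjU, hz⟩), hin y (mem_iUnion₂.2 ⟨j, hjU, hj⟩)]
    · rw [hno z (hout j hjU _ hz), hno y (hout j hjU _ hj)]
  have hF : ∀ g : (Fin (d + 1) → ℝ) → ℝ, (∀ y, |g y| ≤ 1) →
      (∀ y ∈ box d (⋃ j, I s j), ∀ᶠ z in 𝓝 y, g z = g y) →
      g ∈ F (d + 1) k (box d (⋃ j, I s j)) := fun g hg hg' => by
    refine ⟨?_, fun y _ => hg y, fun l _ y hy => ?_⟩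
    · rw [hD.interior_eq]
      exact fun y hy => (contDiffAt_const.congr_of_eventuallyEq (hg' y hy)).contDiffWithinAt
    · rw [hD.interior_eq] at hy
      rcases eq_or_ne l [] with rfl | hl
      · exact hg y
      · rw [(pd_const hD hg' l).2 hl y hy]; simp
  have hf1 := hF f (fun y => by by_cases h : y 0 ∈ A; exacts [by simp [hin y h], by simp [hno y h]])
    hloc
  have hf0 := hF (fun _ => 0) (by simp) (by simp)
  have hfx : (fun j => f (x j)) = fun _ => 0 := funext fun j =>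
    hno _ (hout (c j) (by simp [hU]) _ (hc j))
  have hint : n * δ ≤ ∫ y in box d (⋃ j, I s j), f y := by
    have hm : MeasurableSet {y : Fin (d + 1) → ℝ | y 0 ∈ A} :=
      (hAo.preimage (continuous_apply 0)).measurableSet
    have he : box d (⋃ j, I s j) ∩ {y | y 0 ∈ A} = box d A := by
      ext y
      simp only [box, mem_inter_iff, Set.mem_pi, mem_univ, true_imp_iff, Fin.forall_fin_succ,
        Fin.succ_ne_zero, if_true, if_false, mem_ofPred_eq]
      exact ⟨fun h => ⟨h.2, h.1.2⟩, fun h =>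
        ⟨⟨iUnion₂_subset (fun j _ => subset_iUnion (I s) j) h.1, h.2⟩, h.1⟩⟩
    rw [hf, setIntegral_indicator hm, he]
    simp only [Pi.one_apply, integral_const, smul_eq_mul, mul_one, measureReal_restrict_apply_univ]
    rw [measureReal_def, vol_box, ← measureReal_def, hA, measureReal_biUnion_finset
      (fun i _ j _ hij => hdis hij) (fun _ _ => measurableSet_Ioo) (fun _ _ => measure_Ioo_lt_top.ne)]
    calc n * δ ≤ U.card * δ := by gcongr
      _ = ∑ _j ∈ U, δ := by simp
      _ ≤ _ := Finset.sum_le_sum fun j hj => by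
        have := hδ j (Finset.mem_range.1 (Finset.mem_sdiff.1 hj).1)
        rw [I, Real.volume_real_Ioo_of_le (by linarith)]
        linarith
  rcases le_total (n * δ / 2) (φ fun _ => 0) with h | h
  · refine le_iSup₂_of_le _ hf0 (ENNReal.ofReal_le_ofReal ?_)
    simpa using h.trans (le_abs_self _)
  · refine le_iSup₂_of_le f hf1 (ENNReal.ofReal_le_ofReal ?_)
    rw [hfx]
    exact le_trans (by linarith) (le_abs_self _)

/-- For all `d, k ≥ 1` there is a bounded open Jordan measurable `D` of volume one with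
`e(n, F^k_d(D)) n^{k/d} → ∞`. -/
theorem result (d k : ℕ) (hd : 1 ≤ d) (hk : 1 ≤ k) : ∃ D : Set (Fin d → ℝ),
    Bornology.IsBounded D ∧ IsOpen D ∧ volume (frontier D) = 0 ∧ volume D = 1 ∧
    Tendsto (fun n : ℕ => err d k D n * ENNReal.ofReal ((n : ℝ) ^ ((k : ℝ) / d))) atTop (𝓝 ⊤) := by
  obtain ⟨d, rfl⟩ := Nat.exists_eq_add_of_le' hd
  obtain ⟨ε, hε⟩ : ∃ ε : ℝ, ε = 1 / (2 * (d + 1)) := ⟨_, rfl⟩
  have hd0 : (0 : ℝ) ≤ d := Nat.cast_nonneg d
  have hε0 : 0 < ε := by rw [hε]; positivity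
  have hε1 : ε ≤ 1 := by rw [hε, div_le_one (by positivity)]; linarith
  set s : ℕ → ℝ := fun j => ((j : ℝ) + 1) ^ (-ε) with hs
  have hanti : StrictAnti s := fun i j hij =>
    Real.rpow_lt_rpow_of_neg (by positivity) (by simpa using hij) (by linarith)
  have h0 : s 0 = 1 := by simp [hs]
  have hl : Tendsto s atTop (𝓝 0) := (tendsto_rpow_neg_atTop hε0).comp
    (tendsto_atTop_add_const_right _ _ tendsto_natCast_atTop_atTop)
  have hD : IsOpen (box d (⋃ j, I s j)) := open_box d (isOpen_iUnion fun j => isOpen_Ioo)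
  have hvol : volume (box d (⋃ j, I s j)) = 1 := by rw [vol_box, vol_I hanti h0 hl]
  refine ⟨box d (⋃ j, I s j), ?_, hD, ?_, hvol, ?_⟩
  · refine Bornology.IsBounded.pi fun i => ?_
    split_ifs
    · exact (Metric.isBounded_Icc 0 2).subset (sub_Icc hanti h0 hl (I_sub hanti))
    · exact Metric.isBounded_Ioo 0 1
  · rw [hD.frontier_eq, measure_sdiff subset_closure hD.measurableSet.nullMeasurableSet
      (by rw [hvol]; simp), hvol, tsub_eq_zero_iff_le, box, closure_pi_set, volume_pi_pi,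
      Fin.prod_univ_succ]
    simpa [Fin.succ_ne_zero] using vol_cl hanti h0 hl
  · have ht : Tendsto (fun n : ℕ => ENNReal.ofReal (ε / 12 * (n : ℝ) ^ ε)) atTop (𝓝 ⊤) :=
      ENNReal.tendsto_ofReal_atTop.comp (((tendsto_rpow_atTop hε0).comp
        tendsto_natCast_atTop_atTop).const_mul_atTop (by positivity))
    refine tendsto_nhds_top_mono ht ?_
    filter_upwards [eventually_ge_atTop 1] with n hn
    have hn1 : (1 : ℝ) ≤ n := by exact_mod_cast hn
    have hlow := lower hanti d k n (δ := ε / (3 * n) * (2 * n) ^ (-ε)) (by positivity) fun j hj => by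
      have hj' : (j : ℝ) + 1 ≤ 2 * n := by exact_mod_cast hj
      have hj0 : (0 : ℝ) ≤ j := Nat.cast_nonneg j
      have h1 := rpow_one_add_le_one_add_mul_self (s := -1 / ((j : ℝ) + 2)) (p := ε) (by
        rw [le_div_iff₀ (by positivity)]; linarith) hε0.le hε1
      have h2 : s (j + 1) = s j * (1 + -1 / ((j : ℝ) + 2)) ^ ε := by
        simp only [hs]
        rw [show 1 + -1 / ((j : ℝ) + 2) = (j + 1) / (j + 2) by field_simp; ring,
          Real.div_rpow (by positivity) (by positivity), Real.rpow_neg (by positivity),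
          Real.rpow_neg (by positivity)]
        push_cast
        rw [show (j : ℝ) + 1 + 1 = j + 2 by ring]
        field_simp
      have h3 : (2 * n : ℝ) ^ (-ε) ≤ s j :=
        Real.rpow_le_rpow_of_nonpos (by positivity) hj' (by linarith)
      have h4 : 0 ≤ s j := by simp only [hs]; positivity
      have h5 : ε / (3 * n) ≤ ε / (j + 2) := by gcongr; linarith
      calc _ ≤ ε / (j + 2) * s j := by gcongr
        _ = s j - s j * (1 + ε * (-1 / (j + 2))) := by ring
        _ ≤ _ := by rw [h2]; gcongr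
    refine le_trans ?_ (mul_le_mul_left hlow _)
    rw [← ENNReal.ofReal_mul (by positivity)]
    refine ENNReal.ofReal_le_ofReal ?_
    have h6 : (n : ℝ) ^ (ε + ε) ≤ (n : ℝ) ^ ((k : ℝ) / (d + 1 : ℕ)) := by
      refine Real.rpow_le_rpow_of_exponent_le hn1 ?_
      have : (1 : ℝ) ≤ k := by exact_mod_cast hk
      push_cast
      rw [hε, ← two_mul, le_div_iff₀ (by positivity)]
      field_simp
      linarith
    have h7 : (2 : ℝ) ^ ε ≤ 2 := by
      simpa using Real.rpow_le_rpow_of_exponent_le (x := 2) one_le_two hε1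
    rw [Real.rpow_add (by positivity)] at h6
    rw [Real.rpow_neg (by positivity), Real.mul_rpow (by norm_num) (by positivity)]
    have h8 : 0 < (n : ℝ) ^ ε := by positivity
    have h9 : 0 < (2 : ℝ) ^ ε := by positivity
    calc _ = n * (ε / (3 * n) * (2 * (n : ℝ) ^ ε)⁻¹) / 2 * ((n : ℝ) ^ ε * n ^ ε) := by
          field_simp; norm_num
      _ ≤ _ := by gcongr

end Pool.Agent.Results.MP_935800_an.Counter
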